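import Mathlib
import Pool.Agent.SXF.Stmts

set_option autoImplicit false

/-! Row CIR of the squad SXF: the interface of circuits, from CNT and CIA. -/

namespace Pool.Agent.SXF.H66

open MvPolynomial Pool.Agent.Helper78_ACIT Pool.Agent.WBX

theorem refs_lt {i : ℕ} {g : Gate} (h : g.RefsBelow i) : ∀ a ∈ refs g, a < i := by
  intro a ha
  cases g with
  | zero => simp [refs] at ha
  | one => simp [refs] at ha
  | var v => simp [refs] at ha
  | add b c =>
    simp only [refs, List.mem_cons, List.not_mem_nil, or_false] at ha
    rcases ha with rfl | rfl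
    exacts [h.1, h.2]
  | sub b c =>
    simp only [refs, List.mem_cons, List.not_mem_nil, or_false] at ha
    rcases ha with rfl | rfl
    exacts [h.1, h.2]
  | mul b c =>
    simp only [refs, List.mem_cons, List.not_mem_nil, or_false] at ha
    rcases ha with rfl | rfl
    exacts [h.1, h.2]

theorem refs_getD_lt {G : List Gate} (hG : WellFormed G) {j : ℕ} (hj : j < G.length) :
    ∀ a ∈ refs (G.getD j .zero), a < j := by
  have h : G[j]? = some (G.getD j .zero) := by
    rw [List.getD_eq_getElem?_getD, List.getElem?_eq_getElem hj]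
    rfl
  exact refs_lt (hG.2 j _ h)

/-- The set of the touched gates exists. -/
theorem exists_touched {G : List Gate} (hG : WellFormed G) (B : Finset ℕ) :
    ∃ S : Finset ℕ, IsTouched G B S := by
  classical
  have key : ∀ k ≤ G.length, ∃ S : Finset ℕ, ∀ j, j ∈ S ↔ j < k ∧
      ((∃ v ∈ B, G.getD j .zero = .var v) ∨ ∃ a ∈ refs (G.getD j .zero), a ∈ S) := by
    intro k
    induction k with
    | zero =>
      intro _
      exact ⟨∅, fun j => by simp⟩
    | succ k ih =>
      intro hk
      obtain ⟨S, hS⟩ := ih (by omega)
      have hSk : ∀ a ∈ S, a < k := fun a ha => ((hS a).mp ha).1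
      by_cases hc : (∃ v ∈ B, G.getD k .zero = .var v) ∨ ∃ a ∈ refs (G.getD k .zero), a ∈ S
      · refine ⟨insert k S, fun j => ?_⟩
        have hiff : ∀ i ≤ k, (∃ a ∈ refs (G.getD i .zero), a ∈ insert k S) ↔
            ∃ a ∈ refs (G.getD i .zero), a ∈ S := by
          intro i hi
          constructor
          · rintro ⟨a, ha, haS⟩
            rcases Finset.mem_insert.mp haS with rfl | h
            · exact absurd (refs_getD_lt hG (by omega) a ha) (by omega)
            · exact ⟨a, ha, h⟩
          · rintro ⟨a, ha, haS⟩
            exact ⟨a, ha, Finset.mem_insert_of_mem haS⟩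
        constructor
        · intro hj
          rcases Finset.mem_insert.mp hj with rfl | h
          · exact ⟨Nat.lt_succ_self _, by rw [hiff _ le_rfl]; exact hc⟩
          · have h1 := (hS j).mp h
            exact ⟨by omega, by rw [hiff _ (by omega)]; exact h1.2⟩
        · rintro ⟨hj1, hj2⟩
          rw [hiff _ (by omega)] at hj2
          rcases Nat.lt_succ_iff_lt_or_eq.mp hj1 with h | rfl
          · exact Finset.mem_insert_of_mem ((hS j).mpr ⟨h, hj2⟩)
          · exact Finset.mem_insert_self _ _
      · refine ⟨S, fun j => ?_⟩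
        constructor
        · intro hj
          have h1 := (hS j).mp hj
          exact ⟨by omega, h1.2⟩
        · rintro ⟨hj1, hj2⟩
          rcases Nat.lt_succ_iff_lt_or_eq.mp hj1 with h | rfl
          · exact (hS j).mpr ⟨h, hj2⟩
          · exact absurd hj2 hc
  obtain ⟨S, hS⟩ := key G.length le_rfl
  exact ⟨S, hS⟩

theorem value_mem {A : Type} [CommRing A] (R : Subring A) (x : ℕ → A) (vals : List A)
    (hv : ∀ a ∈ vals, a ∈ R) (g : Gate) (hg : ∀ v, g = .var v → x v ∈ R) :
    g.value x vals ∈ R := by
  have h : ∀ a, vals.getD a 0 ∈ R := by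
    intro a
    rw [List.getD_eq_getElem?_getD]
    cases h : vals[a]? with
    | none => exact R.zero_mem
    | some b => exact hv b (List.mem_of_getElem? h)
  cases g with
  | zero => exact R.zero_mem
  | one => exact R.one_mem
  | var v => exact hg v rfl
  | add a b => exact R.add_mem (h a) (h b)
  | sub a b => exact R.sub_mem (h a) (h b)
  | mul a b => exact R.mul_mem (h a) (h b)

theorem out_mem {A : Type} [CommRing A] (R : Subring A) (x : ℕ → A) (G : List Gate)
    (hx : ∀ v, Gate.var v ∈ G → x v ∈ R) : out x G ∈ R := by
  have key : ∀ (L : List Gate) (acc : List A), (∀ v, Gate.var v ∈ L → x v ∈ R) →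
      (∀ a ∈ acc, a ∈ R) →
      ∀ a ∈ L.foldl (fun vals g => vals ++ [g.value x vals]) acc, a ∈ R := by
    intro L
    induction L with
    | nil => intro acc _ h; exact h
    | cons g L ih =>
      intro acc hL hacc
      rw [List.foldl_cons]
      refine ih _ (fun v hv => hL v (List.mem_cons_of_mem _ hv)) ?_
      intro a ha
      rcases List.mem_append.mp ha with h | h
      · exact hacc a h
      · rw [List.mem_singleton] at h
        rw [h]
        refine value_mem R x acc hacc g fun v hv => hL v ?_
        rw [← hv]
        exact List.mem_cons_self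
  have h := key G [] hx (fun a ha => absurd ha List.not_mem_nil)
  unfold out
  rw [List.getLastD_eq_getLast?]
  cases hl : (values x G).getLast? with
  | none => exact R.zero_mem
  | some a => exact h a (List.mem_of_getLast? hl)

/-- The variables of the polynomial computed by a circuit. -/
theorem vars_polyC {E : Type} [Field E] (n : ℕ) (e : ℕ → E) (G : List Gate) {i : ℕ}
    (hi : i ∈ (polyC n e G).vars) : i < n ∧ Gate.var i ∈ G := by
  have h : polyC n e G ∈ supported E {v : ℕ | v < n ∧ Gate.var v ∈ G} := by
    refine out_mem (supported E {v : ℕ | v < n ∧ Gate.var v ∈ G}).toSubring _ G ?_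
    intro v hv
    by_cases hvn : v < n
    · simp only [hvn, if_true]
      exact X_mem_supported.mpr ⟨hvn, hv⟩
    · simp only [hvn, if_false]
      exact (supported E {v : ℕ | v < n ∧ Gate.var v ∈ G}).algebraMap_mem (e v)
  exact mem_supported.mp h (Finset.mem_coe.mpr hi)

theorem one_le_load {G : List Gate} {v : ℕ} (h : Gate.var v ∈ G) : 1 ≤ load G v := by
  obtain ⟨j, hj, hjv⟩ := List.getElem_of_mem h
  have hget : G.getD j .zero = .var v := by
    rw [List.getD_eq_getElem?_getD, List.getElem?_eq_getElem hj]
    exact hjv
  unfold load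
  refine le_trans ?_ (Finset.single_le_sum (f := fun j =>
    if G.getD j .zero = .var v then max 1 (fanOut G j) else 0)
    (fun _ _ => Nat.zero_le _) (Finset.mem_range.mpr hj))
  simp only [hget, if_true]
  exact le_max_left _ _

theorem cir (hcnt : CntStmt) (hcia : CiaStmt) : CirStmt := by
  intro E _ n e G hG
  refine ⟨fun i hi => Finset.mem_range.mpr (vars_polyC n e G hi).1, load G, le_rfl,
    fun i hi => one_le_load (vars_polyC n e G hi).2, ?_⟩
  intro B e' hB
  obtain ⟨S, hS⟩ := exists_touched hG B
  obtain ⟨t, h, ht, hd, hm⟩ := hcia E n e G B S hG hB hS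
  have hc := hcnt G B S hG hS
  refine ⟨t, 0, h, ?_, hd, ?_⟩
  · show t ≤ 4 * (∑ i ∈ B, load G i + extra G) + 2
    omega
  · rw [pow_zero, one_mul]
    exact hm

end Pool.Agent.SXF.H66
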