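import Mathlib
import Pool.Agent.SXF.Stmts2
import Pool.Agent.Helper66_SXF.CIR
import Pool.Agent.Helper80_SXF.CIA

set_option autoImplicit false

/-! Row CIQ of the squad SXF: the interface of a polynomial in several gates of a circuit. -/

namespace Pool.Agent.SXF.H66

open MvPolynomial Pool.Agent.Helper78_ACIT Pool.Agent.WBX

theorem values_mem {A : Type} [CommRing A] (R : Subring A) (x : ℕ → A) (G : List Gate)
    (hx : ∀ v, Gate.var v ∈ G → x v ∈ R) : ∀ a ∈ values x G, a ∈ R := by
  have key : ∀ (L : List Gate) (acc : List A), (∀ v, Gate.var v ∈ L → x v ∈ R) →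
      (∀ a ∈ acc, a ∈ R) →
      ∀ a ∈ L.foldl (fun vals g => vals ++ [g.value x vals]) acc, a ∈ R := by
    intro L
    induction L with
    | nil => intro acc _ h; exact h
    | cons g L ih =>
      intro acc hL hacc
      rw [List.foldl_cons]
      refine ih _ (fun v hv => hL v (List.mem_cons_of_mem _ hv)) ?_
      intro a ha
      rcases List.mem_append.mp ha with h | h
      · exact hacc a h
      · rw [List.mem_singleton] at h
        rw [h]
        refine value_mem R x acc hacc g fun v hv => hL v ?_
        rw [← hv]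
        exact List.mem_cons_self
  exact key G [] hx (fun a ha => absurd ha List.not_mem_nil)

/-- The polynomial computed by a gate contains only variables that occur in the circuit. -/
theorem gateC_mem {E : Type} [Field E] (n : ℕ) (e : ℕ → E) (G : List Gate) (j : ℕ) :
    gateC n e G j ∈ supported E {v : ℕ | v < n ∧ Gate.var v ∈ G} := by
  unfold gateC
  rw [List.getD_eq_getElem?_getD]
  cases h : (values (fun i => if i < n then X i else C (e i)) G)[j]? with
  | none => exact (supported E {v : ℕ | v < n ∧ Gate.var v ∈ G}).zero_mem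
  | some b =>
    refine values_mem (supported E {v : ℕ | v < n ∧ Gate.var v ∈ G}).toSubring _ G ?_ b
      (List.mem_of_getElem? h)
    intro v hv
    by_cases hvn : v < n
    · simp only [hvn, if_true]
      exact X_mem_supported.mpr ⟨hvn, hv⟩
    · simp only [hvn, if_false]
      exact (supported E {v : ℕ | v < n ∧ Gate.var v ∈ G}).algebraMap_mem (e v)

theorem gateC_eq_zero {E : Type} [Field E] (n : ℕ) (e : ℕ → E) (G : List Gate) {j : ℕ}
    (hj : G.length ≤ j) : gateC n e G j = 0 := by
  unfold gateC
  rw [List.getD_eq_getElem?_getD, List.getElem?_eq_none]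
  · rfl
  · rw [Pool.Agent.SXF.H80.length_values]
    exact hj

theorem aeval_mem_subalgebra {E A : Type} [Field E] [CommRing A] [Algebra E A] {q : ℕ}
    (S : Subalgebra E A) (f : Fin q → A) (hf : ∀ a, f a ∈ S) (P : MvPolynomial (Fin q) E) :
    aeval f P ∈ S := by
  have h1 : aeval f P ∈ (aeval (R := E) f).range := ⟨P, rfl⟩
  rw [← Algebra.adjoin_range_eq_range_aeval] at h1
  refine (Algebra.adjoin_le ?_ : Algebra.adjoin E (Set.range f) ≤ S) h1
  rintro _ ⟨a, rfl⟩
  exact hf a

theorem ciq (hcnt : CntStmt) : CiqStmt := by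
  classical
  intro E _ n e G q J P hG
  have hvars : ∀ i ∈ (aeval (fun a => gateC n e G (J a)) P : MvPolynomial ℕ E).vars,
      i < n ∧ Gate.var i ∈ G := by
    intro i hi
    have h := aeval_mem_subalgebra (supported E {v : ℕ | v < n ∧ Gate.var v ∈ G})
      (fun a => gateC n e G (J a)) (fun a => gateC_mem n e G (J a)) P
    exact mem_supported.mp h (Finset.mem_coe.mpr hi)
  refine ⟨fun i hi => Finset.mem_range.mpr (hvars i hi).1, load G, le_rfl,
    fun i hi => one_le_load (hvars i hi).2, ?_⟩
  intro B e' hB
  obtain ⟨S, hS⟩ := exists_touched hG B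
  set Q : Finset ℕ := (Finset.univ.image J).filter fun j => j < G.length with hQ
  obtain ⟨t, h, ht, hd, hm⟩ := Pool.Agent.SXF.H80.ciaQ E n e G B S Q hG hB hS
    (fun j hj => (Finset.mem_filter.mp hj).2)
  have hc := hcnt G B S hG hS
  have hQq : Q.card ≤ q := by
    refine (Finset.card_filter_le _ _).trans (Finset.card_image_le.trans ?_)
    simp
  refine ⟨t, 0, h, ?_, hd, ?_⟩
  · show t ≤ 4 * (∑ i ∈ B, load G i + extra G) + 2 * q
    omega
  · rw [pow_zero, one_mul]
    refine aeval_mem_subalgebra _ _ (fun a => ?_) P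
    by_cases hJ : J a < G.length
    · exact hm (J a) (Finset.mem_filter.mpr ⟨Finset.mem_image_of_mem J (Finset.mem_univ a), hJ⟩)
    · rw [gateC_eq_zero n e G (not_lt.mp hJ)]
      exact Subalgebra.zero_mem _

end Pool.Agent.SXF.H66
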