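import Mathlib
import Pool.Agent.SXF.Stmts2

set_option autoImplicit false

/-! Row STE of the squad SXF: the values of the step function at the integers. -/

namespace Pool.Agent.SXF.H66

open MvPolynomial Pool.Agent.Helper78_ACIT Pool.Agent.WBX

theorem ste : SteStmt := by
  intro E _ _ n a ha
  refine ⟨?_, ?_⟩
  · refine Finset.prod_ne_zero_iff.mpr fun k hk => ?_
    have hka : k ≠ a := (Finset.mem_erase.mp hk).1
    rw [sub_ne_zero]
    exact fun h => hka (Nat.cast_injective h).symm
  · intro i hi
    unfold step
    have hterm : ∀ l : ℕ, l ≠ a →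
        ∏ k ∈ (Finset.range (n + 1)).erase l, ((a : E) - (k : E)) = 0 := by
      intro l hl
      refine Finset.prod_eq_zero (i := a) ?_ (sub_self _)
      exact Finset.mem_erase.mpr ⟨fun h => hl h.symm, Finset.mem_range.mpr (by omega)⟩
    by_cases hai : a ≤ i
    · rw [if_pos hai]
      exact Finset.sum_eq_single a (fun l _ hl => hterm l hl)
        (fun h => absurd (Finset.mem_range.mpr (by omega)) h)
    · rw [if_neg hai]
      refine Finset.sum_eq_zero fun l hl => hterm l ?_
      have := Finset.mem_range.mp hl
      omega

end Pool.Agent.SXF.H66
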