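import Mathlib
import Pool.Agent.SXF.Stmts

set_option autoImplicit false

/-! Row VDM of the squad SXF: a sparse polynomial with at most `b` terms does not vanish at `b`
different positive integers. -/

namespace Pool.Agent.SXF.H66

open Polynomial

/-- A nonzero polynomial with `k` terms has less than `k` sign changes. -/
theorem signVariations_lt (n : ℕ) : ∀ P : ℚ[X], P ≠ 0 → P.support.card = n →
    P.signVariations < n := by
  induction n with
  | zero =>
    intro P hP h
    exact absurd (by simpa using h) hP
  | succ n ih =>
    intro P hP h
    by_cases he : P.eraseLead = 0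
    · have h1 : P = monomial P.natDegree P.leadingCoeff := by
        have := P.eraseLead_add_monomial_natDegree_leadingCoeff
        rw [he, zero_add] at this
        exact this.symm
      rw [h1, signVariations_monomial]
      exact Nat.succ_pos n
    · have h1 : P.eraseLead.support.card = n := by
        rw [card_support_eraseLead, h, Nat.add_sub_cancel]
      have h2 := ih P.eraseLead he h1
      have h3 := P.signVariations_le_eraseLead_succ
      omega

/-- A polynomial with at most `b` terms does not vanish at `b` different positive integers. -/
theorem eq_zero_of_sparse (P : ℚ[X]) (A : Finset ℕ) (hA : ∀ x ∈ A, 1 ≤ x)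
    (h : ∀ x ∈ A, P.eval (x : ℚ) = 0) (hc : P.support.card ≤ A.card) : P = 0 := by
  by_contra hP
  have h1 := roots_countP_pos_le_signVariations P
  have h2 := signVariations_lt _ P hP rfl
  have h3 : A.card ≤ P.roots.countP (fun x => 0 < x) := by
    calc A.card = (A.image (fun x : ℕ => (x : ℚ))).card :=
          (Finset.card_image_of_injective _ Nat.cast_injective).symm
      _ ≤ (P.roots.filter (fun x => 0 < x)).toFinset.card := by
          refine Finset.card_le_card fun y hy => ?_
          obtain ⟨x, hx, rfl⟩ := Finset.mem_image.mp hy
          rw [Multiset.mem_toFinset, Multiset.mem_filter, mem_roots hP]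
          exact ⟨h x hx, by exact_mod_cast hA x hx⟩
      _ ≤ (P.roots.filter (fun x => 0 < x)).card := Multiset.toFinset_card_le _
      _ = _ := (Multiset.countP_eq_card_filter ..).symm
  omega

theorem vdm : VdmStmt := by
  intro K _ _ b T a ha ha1 u S hS hu h
  -- choose `|S|` of the integers
  have hle : Fintype.card S ≤ Fintype.card (Fin b) := by simpa using hS
  obtain ⟨f⟩ := Function.Embedding.nonempty_of_card_le hle
  set M : Matrix S S ℚ := Matrix.of fun i j => (a (f i) : ℚ) ^ (j.1 : ℕ) with hM
  have hdet : M.det ≠ 0 := by
    intro hd
    obtain ⟨v, hv, hMv⟩ := Matrix.exists_mulVec_eq_zero_iff.mpr hd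
    apply hv
    set P : ℚ[X] := ∑ j : S, monomial (j.1 : ℕ) (v j) with hPdef
    have hcoeff : ∀ j : S, P.coeff (j.1 : ℕ) = v j := by
      intro j
      rw [hPdef, finsetSum_coeff, Finset.sum_eq_single j]
      · simp
      · intro i _ hij
        rw [coeff_monomial, if_neg]
        intro he
        exact hij (Subtype.ext (Fin.ext he))
      · intro hn
        exact absurd (Finset.mem_univ j) hn
    have hsupp : P.support ⊆ (Finset.univ : Finset S).image (fun j => (j.1 : ℕ)) := by
      intro m hm
      rw [mem_support_iff, hPdef, finsetSum_coeff] at hm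
      obtain ⟨j, -, hj⟩ := Finset.exists_ne_zero_of_sum_ne_zero hm
      rw [coeff_monomial] at hj
      refine Finset.mem_image.mpr ⟨j, Finset.mem_univ j, ?_⟩
      by_contra hne
      exact hj (if_neg hne)
    have hP : P = 0 := by
      refine eq_zero_of_sparse P ((Finset.univ : Finset S).image fun i => a (f i)) ?_ ?_ ?_
      · intro x hx
        obtain ⟨i, -, rfl⟩ := Finset.mem_image.mp hx
        exact ha1 _
      · intro x hx
        obtain ⟨i, -, rfl⟩ := Finset.mem_image.mp hx
        have := congrFun hMv i
        rw [Matrix.mulVec, dotProduct] at this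
        rw [hPdef, eval_finsetSum]
        simp only [eval_monomial]
        rw [Pi.zero_apply] at this
        rw [← this]
        refine Finset.sum_congr rfl fun j _ => ?_
        rw [hM, Matrix.of_apply, mul_comm]
      · refine (Finset.card_le_card hsupp).trans (Finset.card_image_le.trans ?_)
        exact (Finset.card_image_of_injective (f := fun i => a (f i)) _
          (fun i j hij => f.injective (ha hij))).ge
    funext j
    rw [← hcoeff j, hP, coeff_zero, Pi.zero_apply]
  have hdetK : (M.map (algebraMap ℚ K)).det ≠ 0 := by
    have : (M.map (algebraMap ℚ K)).det = algebraMap ℚ K M.det := by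
      rw [← RingHom.mapMatrix_apply, RingHom.map_det]
    rw [this]
    exact fun h0 => hdet ((map_eq_zero _).mp h0)
  have hz : (fun j : S => u j.1) = 0 := by
    refine Matrix.eq_zero_of_mulVec_eq_zero hdetK ?_
    funext i
    rw [Matrix.mulVec, dotProduct, Pi.zero_apply, ← h (f i)]
    rw [← Finset.sum_subset (Finset.subset_univ S) (fun j _ hj => by rw [hu j hj, zero_mul]),
      ← Finset.sum_coe_sort S]
    refine Finset.sum_congr rfl fun j _ => ?_
    rw [Matrix.map_apply, hM, Matrix.of_apply, map_pow, map_natCast, mul_comm]
  funext j
  by_cases hj : j ∈ S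
  · exact congrFun hz ⟨j, hj⟩
  · exact hu j hj

end Pool.Agent.SXF.H66
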